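import Pool.Agent.Helper578.JD.Defs

set_option autoImplicit false

/-!
Computable signatures, first-order formulas, computable structures, complete theories and their
Turing degrees.
-/

namespace Pool.Agent.W882.CM

open Pool.Agent.Helper578.JD

/-- A countable first-order signature. Its relation symbols are the `R_i` with `rel i = some k`
(and then `k` is the arity of `R_i`), its function symbols are the `F_i` with `fn i = some k` (and
then `k` is the arity of `F_i`; constants are function symbols of arity `0`). -/
structure Sig where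
  rel : ℕ → Option ℕ
  fn : ℕ → Option ℕ

/-- The signature is computable. -/
def Sig.IsComputable (L : Sig) : Prop := Computable L.rel ∧ Computable L.fn

/-- Terms with the variables `x_0, x_1, ...`. The term `app i k ts` is `F_i(ts 0, ..., ts (k - 1))`. -/
inductive Tm
  | var (v : ℕ)
  | app (i k : ℕ) (ts : Fin k → Tm)

/-- First-order formulas (with equality). The formula `rel i k ts` is
`R_i(ts 0, ..., ts (k - 1))`. -/
inductive Fm
  | rel (i k : ℕ) (ts : Fin k → Tm)
  | eq (s t : Tm)
  | not (φ : Fm)
  | and (φ ψ : Fm)
  | ex (v : ℕ) (φ : Fm)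

/-- All function symbols in the term are in the signature `L`, and are used with the right arity. -/
def Tm.InSig (L : Sig) : Tm → Prop
  | .var _ => True
  | .app i k ts => L.fn i = some k ∧ ∀ j, (ts j).InSig L

/-- All symbols in the formula are in the signature `L`, and are used with the right arity. -/
def Fm.InSig (L : Sig) : Fm → Prop
  | .rel i k ts => L.rel i = some k ∧ ∀ j, (ts j).InSig L
  | .eq s t => s.InSig L ∧ t.InSig L
  | .not φ => φ.InSig L
  | .and φ ψ => φ.InSig L ∧ ψ.InSig L
  | .ex _ φ => φ.InSig L

/-- The list of (the indices of) the variables of a term. -/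
def Tm.vars : Tm → List ℕ
  | .var v => [v]
  | .app _ _ ts => (List.ofFn fun j => (ts j).vars).flatten

/-- The list of (the indices of) the free variables of a formula. -/
def Fm.fv : Fm → List ℕ
  | .rel _ _ ts => (List.ofFn fun j => (ts j).vars).flatten
  | .eq s t => s.vars ++ t.vars
  | .not φ => φ.fv
  | .and φ ψ => φ.fv ++ ψ.fv
  | .ex v φ => φ.fv.filter (· ≠ v)

/-- `φ` is a sentence of the signature `L`. -/
def Fm.IsSentence (L : Sig) (φ : Fm) : Prop := φ.InSig L ∧ φ.fv = []

/-- The Goedel number of a term. -/
def Tm.code : Tm → ℕ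
  | .var v => Nat.pair 0 v
  | .app i _ ts => Nat.pair (i + 1) (Encodable.encode (List.ofFn fun j => (ts j).code))

/-- The Goedel number of a formula. -/
def Fm.code : Fm → ℕ
  | .rel i _ ts => Nat.pair 0 (Nat.pair i (Encodable.encode (List.ofFn fun j => (ts j).code)))
  | .eq s t => Nat.pair 1 (Nat.pair s.code t.code)
  | .not φ => Nat.pair 2 φ.code
  | .and φ ψ => Nat.pair 3 (Nat.pair φ.code ψ.code)
  | .ex v φ => Nat.pair (v + 4) φ.code

/-- Interpretations of the symbols on a universe `U` which is a set of natural numbers. -/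
structure Str where
  U : Set ℕ
  R : ℕ → List ℕ → Prop
  F : ℕ → List ℕ → ℕ

/-- `A` is a structure for the signature `L`: the universe is nonempty and closed under the
functions of the signature. -/
def Str.IsStr (L : Sig) (A : Str) : Prop :=
  A.U.Nonempty ∧ ∀ i xs, L.fn i = some xs.length → (∀ x ∈ xs, x ∈ A.U) → A.F i xs ∈ A.U

/-- The value of a term under an assignment. -/
def Tm.val (A : Str) (x : ℕ → ℕ) : Tm → ℕ
  | .var v => x v
  | .app i _ ts => A.F i (List.ofFn fun j => (ts j).val A x)

/-- Satisfaction of a formula in `A` under an assignment. The quantifiers range over the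
universe `A.U`. -/
def Fm.Sat (A : Str) : Fm → (ℕ → ℕ) → Prop
  | .rel i _ ts, x => A.R i (List.ofFn fun j => (ts j).val A x)
  | .eq s t, x => s.val A x = t.val A x
  | .not φ, x => ¬ φ.Sat A x
  | .and φ ψ, x => φ.Sat A x ∧ ψ.Sat A x
  | .ex v φ, x => ∃ a ∈ A.U, φ.Sat A (Function.update x v a)

/-- `A` is a model of the set `T` of sentences. -/
def Str.IsModel (A : Str) (T : Set Fm) : Prop :=
  ∀ φ ∈ T, ∀ x : ℕ → ℕ, (∀ v, x v ∈ A.U) → φ.Sat A x

/-- `A` is a computable structure for the signature `L`: its universe is a computable set, and its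
relations and functions are uniformly computable (on the universe). -/
def Str.IsComputable (L : Sig) (A : Str) : Prop :=
  A.IsStr L ∧ ComputablePred (fun n => n ∈ A.U) ∧
  (∃ d : ℕ × List ℕ → Bool, Computable d ∧
    ∀ i xs, L.rel i = some xs.length → (∀ x ∈ xs, x ∈ A.U) → (d (i, xs) = true ↔ A.R i xs)) ∧
  ∃ e : ℕ × List ℕ → ℕ, Computable e ∧
    ∀ i xs, L.fn i = some xs.length → (∀ x ∈ xs, x ∈ A.U) → e (i, xs) = A.F i xs

/-- `T` is a complete theory in the signature `L`: a set of sentences of `L` which contains, for
every sentence `φ` of `L`, the sentence `φ` or the sentence `¬ φ`. (When `T` has a model it cannot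
contain both, and then it is closed under consequence.) -/
def IsCompleteTheory (L : Sig) (T : Set Fm) : Prop :=
  (∀ φ ∈ T, φ.IsSentence L) ∧ ∀ φ : Fm, φ.IsSentence L → φ ∈ T ∨ Fm.not φ ∈ T

/-- The set of Goedel numbers of the members of `T`. -/
def codes (T : Set Fm) : Set ℕ := {n | ∃ φ ∈ T, φ.code = n}

/-- The Turing degree of a theory. -/
noncomputable def theoryDegree (T : Set Fm) : TuringDegree := deg (codes T)

/-- The set `{⟨n, x⟩ : x ∈ ∅^(n)}`, where `∅^(n)` is the `n`-th jump of the empty set. -/
def zeroOmega : Set ℕ := {m | m.unpair.2 ∈ jump^[m.unpair.1] ∅}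

end Pool.Agent.W882.CM
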