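import Pool.Agent.W882.CM.Rec

set_option autoImplicit false

/-!
Codes of terms and formulas: every number is the code of exactly one term and of exactly one
formula; the syntactic notions and the values of terms are computable from the codes.
-/

namespace Pool.Agent.W882.CM

open Encodable Pool.Agent.Helper578.JD Oracle RE Defs
open Nat.Partrec (Code)

theorem mem_le_encode : ∀ (l : List ℕ) (v : ℕ), v ∈ l → v < encode l := by
  intro l
  induction l with
  | nil => intro v hv; cases hv
  | cons a l ih =>
    intro v hv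
    rw [Encodable.encode_list_cons]
    have h1 := Nat.left_le_pair (encode a) (encode l)
    have h2 := Nat.right_le_pair (encode a) (encode l)
    have h3 : encode a = a := rfl
    rcases List.mem_cons.1 hv with rfl | hv
    · omega
    · have := ih v hv
      omega

theorem ofFn_inj {k k' : ℕ} {ts : Fin k → Tm} {ts' : Fin k' → Tm}
    (hi : ∀ j t', (ts j).code = Tm.code t' → ts j = t')
    (h : (List.ofFn fun j => (ts j).code) = List.ofFn fun j => (ts' j).code) :
    k = k' ∧ HEq ts ts' := by
  have hk : k = k' := by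
    have := congrArg List.length h
    simpa using this
  subst hk
  refine ⟨rfl, heq_of_eq ?_⟩
  have h1 := List.ofFn_injective h
  funext j
  exact hi j _ (congrFun h1 j)

theorem Tm.code_inj : ∀ t t' : Tm, t.code = t'.code → t = t' := by
  intro t
  induction t with
  | var v =>
    intro t' h
    cases t' with
    | var u => simp only [Tm.code, Nat.pair_eq_pair, true_and] at h; rw [h]
    | app i k ts => simp only [Tm.code, Nat.pair_eq_pair] at h; omega
  | app i k ts ih =>
    intro t' h
    cases t' with
    | var u => simp only [Tm.code, Nat.pair_eq_pair] at h; omega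
    | app i' k' ts' =>
      simp only [Tm.code, Nat.pair_eq_pair] at h
      have h1 : i = i' := by omega
      obtain ⟨h2, h3⟩ := ofFn_inj ih (Encodable.encode_injective h.2)
      subst h1 h2
      rw [eq_of_heq h3]

theorem ofFn_surj {l : List ℕ} (h : ∀ k ∈ l, ∃ t : Tm, t.code = k) :
    ∃ (k : ℕ) (ts : Fin k → Tm), (List.ofFn fun j => (ts j).code) = l := by
  have h1 : ∀ j : Fin l.length, ∃ t : Tm, t.code = l[j] := fun j => h _ (List.getElem_mem _)
  choose ts hts using h1
  refine ⟨l.length, ts, ?_⟩
  simp only [hts]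
  exact List.ofFn_getElem

theorem Tm.code_surj : ∀ n : ℕ, ∃ t : Tm, t.code = n := by
  intro n
  induction n using Nat.strong_induction_on with
  | _ n ih =>
    have hn : Nat.pair n.unpair.1 n.unpair.2 = n := Nat.pair_unpair n
    generalize n.unpair.1 = a at hn
    generalize n.unpair.2 = b at hn
    have hle : a + b ≤ n := by rw [← hn]; exact Nat.add_le_pair a b
    rcases a with _ | a
    · exact ⟨.var b, by rw [← hn]; simp only [Tm.code]⟩
    · obtain ⟨k, ts, hts⟩ := ofFn_surj (l := Denumerable.ofNat (List ℕ) b) fun k hk => ih k (by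
        have h1 := mem_le_encode _ k hk
        rw [Denumerable.encode_ofNat] at h1
        omega)
      refine ⟨.app a k ts, ?_⟩
      rw [← hn]
      simp only [Tm.code, hts, Denumerable.encode_ofNat]

theorem tms_surj (l : List ℕ) : ∃ (k : ℕ) (ts : Fin k → Tm),
    (List.ofFn fun j => (ts j).code) = l :=
  ofFn_surj fun k _ => Tm.code_surj k

theorem Fm.code_inj : ∀ φ ψ : Fm, φ.code = ψ.code → φ = ψ := by
  intro φ
  induction φ with
  | rel i k ts =>
    intro ψ h
    cases ψ with
    | rel i' k' us =>
      simp only [Fm.code, Nat.pair_eq_pair, true_and] at h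
      obtain ⟨h1, h2⟩ := h
      obtain ⟨h3, h4⟩ := ofFn_inj (fun j t' => Tm.code_inj (ts j) t')
        (Encodable.encode_injective h2)
      subst h1 h3
      rw [eq_of_heq h4]
    | eq s t => simp [Fm.code, Nat.pair_eq_pair] at h
    | not φ => simp [Fm.code, Nat.pair_eq_pair] at h
    | and φ ψ => simp [Fm.code, Nat.pair_eq_pair] at h
    | ex v φ => simp only [Fm.code, Nat.pair_eq_pair] at h; omega
  | eq s t =>
    intro ψ h
    cases ψ with
    | rel j _ us => simp [Fm.code, Nat.pair_eq_pair] at h
    | eq s' t' =>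
      simp only [Fm.code, Nat.pair_eq_pair, true_and] at h
      rw [Tm.code_inj _ _ h.1, Tm.code_inj _ _ h.2]
    | not φ => simp [Fm.code, Nat.pair_eq_pair] at h
    | and φ ψ => simp [Fm.code, Nat.pair_eq_pair] at h
    | ex v φ => simp only [Fm.code, Nat.pair_eq_pair] at h; omega
  | not φ ih =>
    intro ψ h
    cases ψ with
    | rel j _ us => simp [Fm.code, Nat.pair_eq_pair] at h
    | eq s' t' => simp [Fm.code, Nat.pair_eq_pair] at h
    | not φ =>
      simp only [Fm.code, Nat.pair_eq_pair, true_and] at h
      rw [ih _ h]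
    | and φ ψ => simp [Fm.code, Nat.pair_eq_pair] at h
    | ex v φ => simp only [Fm.code, Nat.pair_eq_pair] at h; omega
  | and φ1 φ2 ih1 ih2 =>
    intro ψ h
    cases ψ with
    | rel j _ us => simp [Fm.code, Nat.pair_eq_pair] at h
    | eq s' t' => simp [Fm.code, Nat.pair_eq_pair] at h
    | not φ => simp [Fm.code, Nat.pair_eq_pair] at h
    | and φ ψ =>
      simp only [Fm.code, Nat.pair_eq_pair, true_and] at h
      rw [ih1 _ h.1, ih2 _ h.2]
    | ex v φ => simp only [Fm.code, Nat.pair_eq_pair] at h; omega
  | ex v φ ih =>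
    intro ψ h
    cases ψ with
    | rel j _ us => simp only [Fm.code, Nat.pair_eq_pair] at h; omega
    | eq s' t' => simp only [Fm.code, Nat.pair_eq_pair] at h; omega
    | not φ => simp only [Fm.code, Nat.pair_eq_pair] at h; omega
    | and φ ψ => simp only [Fm.code, Nat.pair_eq_pair] at h; omega
    | ex v' φ' =>
      simp only [Fm.code, Nat.pair_eq_pair] at h
      have h1 : v = v' := by omega
      rw [h1, ih _ h.2]

theorem Fm.code_surj : ∀ n : ℕ, ∃ φ : Fm, φ.code = n := by
  intro n
  induction n using Nat.strong_induction_on with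
  | _ n ih =>
    have hn : Nat.pair n.unpair.1 n.unpair.2 = n := Nat.pair_unpair n
    generalize n.unpair.1 = a at hn
    generalize n.unpair.2 = b at hn
    have hle : a + b ≤ n := by rw [← hn]; exact Nat.add_le_pair a b
    have hb1 := Nat.unpair_left_le b
    have hb2 := Nat.unpair_right_le b
    rcases a with _ | _ | _ | _ | a
    · obtain ⟨k, ts, hts⟩ := tms_surj (Denumerable.ofNat (List ℕ) b.unpair.2)
      refine ⟨.rel b.unpair.1 k ts, ?_⟩
      rw [← hn]
      simp only [Fm.code, hts, Denumerable.encode_ofNat, Nat.pair_unpair]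
    · obtain ⟨s, hs⟩ := Tm.code_surj b.unpair.1
      obtain ⟨t, ht⟩ := Tm.code_surj b.unpair.2
      refine ⟨.eq s t, ?_⟩
      rw [← hn]
      simp only [Fm.code, hs, ht, Nat.pair_unpair]
    · obtain ⟨φ, hφ⟩ := ih b (by omega)
      exact ⟨.not φ, by rw [← hn]; simp only [Fm.code, hφ]⟩
    · obtain ⟨φ, hφ⟩ := ih b.unpair.1 (by omega)
      obtain ⟨ψ, hψ⟩ := ih b.unpair.2 (by omega)
      exact ⟨.and φ ψ, by rw [← hn]; simp only [Fm.code, hφ, hψ, Nat.pair_unpair]⟩
    · obtain ⟨φ, hφ⟩ := ih b (by omega)
      exact ⟨.ex a φ, by rw [← hn]; simp only [Fm.code, hφ]⟩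

/-! ### sizes -/

theorem Tm.lt_app {i k : ℕ} {ts : Fin k → Tm} (j : Fin k) :
    (ts j).code < (Tm.app i k ts).code := by
  have h1 := mem_le_encode (List.ofFn fun j => (ts j).code) (ts j).code
    (List.mem_ofFn.2 ⟨j, rfl⟩)
  have h2 := Nat.right_le_pair (i + 1) (encode (List.ofFn fun j => (ts j).code))
  simp only [Tm.code]
  omega

theorem Fm.lt_not (φ : Fm) : φ.code < (Fm.not φ).code := by
  have := Nat.add_le_pair 2 φ.code
  simp only [Fm.code]
  omega

theorem Fm.lt_and1 (φ ψ : Fm) : φ.code < (Fm.and φ ψ).code := by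
  have := Nat.add_le_pair 3 (Nat.pair φ.code ψ.code)
  have := Nat.left_le_pair φ.code ψ.code
  simp only [Fm.code]
  omega

theorem Fm.lt_and2 (φ ψ : Fm) : ψ.code < (Fm.and φ ψ).code := by
  have := Nat.add_le_pair 3 (Nat.pair φ.code ψ.code)
  have := Nat.right_le_pair φ.code ψ.code
  simp only [Fm.code]
  omega

theorem Fm.lt_ex (v : ℕ) (φ : Fm) : φ.code < (Fm.ex v φ).code := by
  have := Nat.add_le_pair (v + 4) φ.code
  simp only [Fm.code]
  omega

/-! ### computable functions on codes of terms -/

/-- A function defined by recursion on terms is computable from the codes. -/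
theorem tm_rec {α σ : Type} [Primcodable α] [Primcodable σ] (d : σ)
    {F : α → Tm → σ} {a : α → ℕ → σ} {b : α → ℕ → List σ → σ}
    (ha : Computable fun q : α × ℕ => a q.1 q.2)
    (hb : Computable fun q : (α × ℕ) × List σ => b q.1.1 q.1.2 q.2)
    (h1 : ∀ z v, F z (.var v) = a z v)
    (h2 : ∀ z i k ts, F z (.app i k ts) = b z i (List.ofFn fun j => F z (ts j))) :
    ∃ f : α → ℕ → σ, Computable₂ f ∧ ∀ z t, f z (Tm.code t) = F z t := by
  have hg : Computable₂ fun (z : α) (l : List σ) =>
      bif decide (l.length.unpair.1 = 0) then a z l.length.unpair.2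
      else b z (l.length.unpair.1 - 1) ((Denumerable.ofNat (List ℕ) l.length.unpair.2).map
        fun k => (l[k]?).getD d) := by
    refine ccond (cdecide (cp_eq (by fun_prop) (by fun_prop))) ?_ ?_
    · exact ha.comp (g := fun q : α × List σ => (q.1, q.2.length.unpair.2)) (by fun_prop)
    · exact hb.comp (g := fun q : α × List σ => ((q.1, q.2.length.unpair.1 - 1),
        (Denumerable.ofNat (List ℕ) q.2.length.unpair.2).map fun k => (q.2[k]?).getD d))
        (by fun_prop)
  obtain ⟨f, hf, h⟩ := strong_rec hg
  refine ⟨f, hf, fun z t => ?_⟩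
  induction t with
  | var v =>
    rw [h, h1]
    simp only [List.length_map, List.length_range]
    simp [Tm.code]
  | app i k ts ih =>
    rw [h, h2]
    simp only [List.length_map, List.length_range]
    have h3 : (Tm.app i k ts).code.unpair = (i + 1, encode (List.ofFn fun j => (ts j).code)) := by
      simp [Tm.code]
    rw [h3]
    simp only [Nat.add_eq_zero_iff, one_ne_zero, and_false, decide_false, cond_false,
      Nat.add_sub_cancel, Denumerable.ofNat_encode, List.map_ofFn]
    congr 2
    funext j
    simp only [Function.comp]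
    rw [get_earlier (Tm.lt_app j), ih j]

/-- A function defined by recursion on formulas is computable from the codes. -/
theorem fm_rec {α σ : Type} [Primcodable α] [Primcodable σ] (d : σ)
    {F : α → Fm → σ} {r : α → ℕ → List ℕ → σ} {e : α → ℕ → ℕ → σ} {n : α → σ → σ}
    {c : α → σ → σ → σ} {x : α → ℕ → σ → σ}
    (hr : Computable fun q : (α × ℕ) × List ℕ => r q.1.1 q.1.2 q.2)
    (he : Computable fun q : (α × ℕ) × ℕ => e q.1.1 q.1.2 q.2)
    (hn : Computable fun q : α × σ => n q.1 q.2)
    (hc : Computable fun q : (α × σ) × σ => c q.1.1 q.1.2 q.2)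
    (hx : Computable fun q : (α × ℕ) × σ => x q.1.1 q.1.2 q.2)
    (h1 : ∀ z i k ts, F z (.rel i k ts) = r z i (List.ofFn fun j => (ts j).code))
    (h2 : ∀ z s t, F z (.eq s t) = e z s.code t.code)
    (h3 : ∀ z φ, F z (.not φ) = n z (F z φ))
    (h4 : ∀ z φ ψ, F z (.and φ ψ) = c z (F z φ) (F z ψ))
    (h5 : ∀ z v φ, F z (.ex v φ) = x z v (F z φ)) :
    ∃ f : α → ℕ → σ, Computable₂ f ∧ ∀ z φ, f z (Fm.code φ) = F z φ := by
  have hg : Computable₂ fun (z : α) (l : List σ) =>
      bif decide (l.length.unpair.1 = 0) then r z l.length.unpair.2.unpair.1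
        (Denumerable.ofNat (List ℕ) l.length.unpair.2.unpair.2)
      else bif decide (l.length.unpair.1 = 1) then
        e z l.length.unpair.2.unpair.1 l.length.unpair.2.unpair.2
      else bif decide (l.length.unpair.1 = 2) then n z ((l[l.length.unpair.2]?).getD d)
      else bif decide (l.length.unpair.1 = 3) then
        c z ((l[l.length.unpair.2.unpair.1]?).getD d) ((l[l.length.unpair.2.unpair.2]?).getD d)
      else x z (l.length.unpair.1 - 4) ((l[l.length.unpair.2]?).getD d) := by
    refine ccond (cdecide (cp_eq (by fun_prop) (by fun_prop))) ?_ (ccond (cdecide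
      (cp_eq (by fun_prop) (by fun_prop))) ?_ (ccond (cdecide (cp_eq (by fun_prop) (by fun_prop)))
      ?_ (ccond (cdecide (cp_eq (by fun_prop) (by fun_prop))) ?_ ?_)))
    · exact hr.comp (g := fun q : α × List σ => ((q.1, q.2.length.unpair.2.unpair.1),
        Denumerable.ofNat (List ℕ) q.2.length.unpair.2.unpair.2)) (by fun_prop)
    · exact he.comp (g := fun q : α × List σ => ((q.1, q.2.length.unpair.2.unpair.1),
        q.2.length.unpair.2.unpair.2)) (by fun_prop)
    · exact hn.comp (g := fun q : α × List σ => (q.1, (q.2[q.2.length.unpair.2]?).getD d))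
        (by fun_prop)
    · exact hc.comp (g := fun q : α × List σ => ((q.1,
        (q.2[q.2.length.unpair.2.unpair.1]?).getD d),
        (q.2[q.2.length.unpair.2.unpair.2]?).getD d)) (by fun_prop)
    · exact hx.comp (g := fun q : α × List σ => ((q.1, q.2.length.unpair.1 - 4),
        (q.2[q.2.length.unpair.2]?).getD d)) (by fun_prop)
  obtain ⟨f, hf, h⟩ := strong_rec hg
  refine ⟨f, hf, fun z φ => ?_⟩
  induction φ with
  | rel i k ts =>
    rw [h, h1]
    simp only [List.length_map, List.length_range]
    simp [Fm.code]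
  | eq s t =>
    rw [h, h2]
    simp only [List.length_map, List.length_range]
    simp [Fm.code]
  | not φ ih =>
    rw [h, h3]
    simp only [List.length_map, List.length_range]
    have h6 : (Fm.not φ).code.unpair = (2, φ.code) := by simp [Fm.code]
    rw [h6]
    simp only [get_earlier (Fm.lt_not φ), ih]
    rfl
  | and φ ψ ih1 ih2 =>
    rw [h, h4]
    simp only [List.length_map, List.length_range]
    have h6 : (Fm.and φ ψ).code.unpair = (3, Nat.pair φ.code ψ.code) := by simp [Fm.code]
    rw [h6]
    simp only [Nat.unpair_pair, get_earlier (Fm.lt_and1 φ ψ), get_earlier (Fm.lt_and2 φ ψ),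
      ih1, ih2]
    rfl
  | ex v φ ih =>
    rw [h, h5]
    simp only [List.length_map, List.length_range]
    have h6 : (Fm.ex v φ).code.unpair = (v + 4, φ.code) := by simp [Fm.code]
    rw [h6]
    have h7 : ∀ k, k < 4 → ¬ (v + 4 = k) := by intro k hk; omega
    simp only [get_earlier (Fm.lt_ex v φ), ih, h7 0 (by norm_num), h7 1 (by norm_num),
      h7 2 (by norm_num), h7 3 (by norm_num), decide_false, cond_false, Nat.add_sub_cancel]

end Pool.Agent.W882.CM
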