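import Pool.Agent.W882.CM.Base
import Pool.Agent.W882.Diag

set_option autoImplicit false

/-!
Course-of-values recursion, the uniform jump lemma, and codes of terms and formulas.
-/

namespace Pool.Agent.W882.CM

open Encodable Pool.Agent.Helper578.JD Oracle RE Defs
open Nat.Partrec (Code)

section rec
variable {α : Type} {σ : Type} [Primcodable α] [Primcodable σ]

/-- the list of the first values -/
def cv (g : α → List σ → σ) (a : α) (n : ℕ) : List σ :=
  Nat.rec [] (fun _ l => l ++ [g a l]) n

theorem cv_zero (g : α → List σ → σ) (a : α) : cv g a 0 = [] := rfl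

theorem cv_succ (g : α → List σ → σ) (a : α) (n : ℕ) :
    cv g a (n + 1) = cv g a n ++ [g a (cv g a n)] := rfl

theorem cv_eq (g : α → List σ → σ) (a : α) (n : ℕ) :
    cv g a n = (List.range n).map fun k => g a (cv g a k) := by
  induction n with
  | zero => rfl
  | succ n ih => rw [cv_succ, List.range_succ, List.map_append, ← ih]; rfl

theorem cv_comp {g : α → List σ → σ} (hg : Computable₂ g) : Computable₂ (cv g) := by
  have h := Computable.nat_rec (f := fun q : α × ℕ => q.2) (g := fun _ : α × ℕ => ([] : List σ))
    (h := fun (q : α × ℕ) (y : ℕ × List σ) => y.2 ++ [g q.1 y.2]) Computable.snd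
    (Computable.const []) (by
      have h1 : Computable fun z : (α × ℕ) × (ℕ × List σ) => g z.1.1 z.2.2 :=
        hg.comp (by fun_prop) (by fun_prop)
      exact Computable.list_concat.comp (Computable.snd.comp Computable.snd) h1)
  exact h.of_eq fun q => rfl

/-- Course-of-values recursion. -/
theorem strong_rec {g : α → List σ → σ} (hg : Computable₂ g) :
    ∃ f : α → ℕ → σ, Computable₂ f ∧ ∀ a n, f a n = g a ((List.range n).map (f a)) := by
  refine ⟨fun a n => g a (cv g a n), ?_, fun a n => ?_⟩
  · exact hg.comp Computable.fst (cv_comp hg)
  · show g a (cv g a n) = g a ((List.range n).map fun k => g a (cv g a k))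
    rw [← cv_eq]

/-- read off a list of earlier values -/
theorem get_earlier {f : ℕ → σ} {n k : ℕ} (hk : k < n) (d : σ) :
    (((List.range n).map f)[k]?).getD d = f k := by
  rw [List.getElem?_map, List.getElem?_range hk]
  rfl

@[fun_prop]
theorem cmapget (d : σ) {f : α → List ℕ} {g : α → List σ} (hf : Computable f)
    (hg : Computable g) : Computable fun x => (f x).map fun k => ((g x)[k]?).getD d := by
  have h1 : Primrec fun q : List ℕ × List σ => q.1.map fun k => (q.2[k]?).getD d := by
    refine Primrec.list_map Primrec.fst ?_
    exact (Primrec.option_getD.comp (Primrec.list_getElem?.comp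
      (Primrec.snd.comp Primrec.fst) Primrec.snd) (Primrec.const d))
  exact h1.to_comp.comp (g := fun x => (f x, g x)) (by fun_prop)

@[fun_prop]
theorem cflatget {β : Type} [Primcodable β] {f : α → List ℕ} {g : α → List (List β)}
    (hf : Computable f) (hg : Computable g) :
    Computable fun x => (f x).flatMap fun k => ((g x)[k]?).getD [] := by
  have h1 : Primrec fun q : List ℕ × List (List β) => q.1.flatMap fun k => (q.2[k]?).getD [] := by
    refine Primrec.list_flatMap Primrec.fst ?_
    exact (Primrec.option_getD.comp (Primrec.list_getElem?.comp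
      (Primrec.snd.comp Primrec.fst) Primrec.snd) (Primrec.const []))
  exact h1.to_comp.comp (g := fun x => (f x, g x)) (by fun_prop)

@[fun_prop]
theorem cgetD (d : σ) {f : α → ℕ} {g : α → List σ} (hf : Computable f)
    (hg : Computable g) : Computable fun x => ((g x)[f x]?).getD d := by
  have h1 : Primrec fun q : ℕ × List σ => (q.2[q.1]?).getD d :=
    (Primrec.option_getD.comp (Primrec.list_getElem?.comp Primrec.snd Primrec.fst)
      (Primrec.const d))
  exact h1.to_comp.comp (g := fun x => (f x, g x)) (by fun_prop)

@[fun_prop]
theorem cremove {f : α → List ℕ} {g : α → ℕ} (hf : Computable f) (hg : Computable g) :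
    Computable fun x => (f x).filter (· ≠ g x) := by
  have h1 : Primrec fun q : List ℕ × ℕ => q.1.flatMap fun k => if k = q.2 then [] else [k] := by
    refine Primrec.list_flatMap Primrec.fst ?_
    refine Primrec.ite (Primrec.eq.comp Primrec.snd (Primrec.snd.comp Primrec.fst))
      (Primrec.const []) ?_
    exact Primrec.list_cons.comp Primrec.snd (Primrec.const [])
  have h2 := h1.to_comp.comp (g := fun x => (f x, g x)) (by fun_prop)
  refine h2.of_eq fun x => ?_
  generalize f x = l
  induction l with
  | nil => rfl
  | cons a l ih =>
    simp only at ih ⊢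
    rw [List.flatMap_cons, ih, List.filter_cons]
    by_cases h : a = g x <;> simp [h]

@[fun_prop]
theorem cofList {f : α → ℕ} (hf : Computable f) :
    Computable fun x => (Denumerable.ofNat (List ℕ) (f x)) := (Computable.ofNat (List ℕ)).comp hf

end rec

end Pool.Agent.W882.CM
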