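import Pool.Agent.W882.CM.Rec

set_option autoImplicit false

/-!
The uniform jump lemma: if every set of a sequence is uniformly enumerable in the set before it,
then the `n`-th set is many-one reducible to the `n`-th jump of the empty set, uniformly in `n`.
-/

namespace Pool.Agent.W882.CM

open Encodable Pool.Agent.Helper578.JD Oracle RE Defs
open Nat.Partrec (Code)

/-- the value of the computable function with index `i` at `y` is listed in `l` -/
def InL (i y : ℕ) (l : List ℕ) : Prop := ∃ z ∈ l, z ∈ (Denumerable.ofNat Code i).eval y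

theorem eval_graph_re : REPred fun p : (ℕ × ℕ) × ℕ =>
    p.2 ∈ (Denumerable.ofNat Code p.1.1).eval p.1.2 := by
  have h : Partrec fun p : ℕ × ℕ => (Denumerable.ofNat Code p.1).eval p.2 :=
    Code.eval_part.comp ((Computable.ofNat Code).comp Computable.fst) Computable.snd
  have h2 : Partrec fun p : (ℕ × ℕ) × ℕ => ((Denumerable.ofNat Code p.1.1).eval p.1.2).bind
      fun z => Part.assert (z = p.2) fun _ => Part.some () := by
    refine Partrec.bind (h.comp (g := fun p : (ℕ × ℕ) × ℕ => p.1) Computable.fst) ?_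
    exact (RE.eq (f := fun q : ((ℕ × ℕ) × ℕ) × ℕ => q.2) (g := fun q => q.1.2) (by fun_prop)
      (by fun_prop))
  refine h2.dom_re.of_eq fun p => ?_
  simp only [Part.bind_dom]
  constructor
  · rintro ⟨h3, h4, -⟩
    rw [← h4]
    exact Part.get_mem h3
  · intro h3
    have h4 : ((Denumerable.ofNat Code p.1.1).eval p.1.2).Dom := Part.dom_iff_mem.2 ⟨_, h3⟩
    exact ⟨h4, Part.mem_unique (Part.get_mem h4) h3, trivial⟩

theorem inL_re {α : Type} [Primcodable α] {i y : α → ℕ} {l : α → List ℕ} (hi : Computable i)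
    (hy : Computable y) (hl : Computable l) : REPred fun a => InL (i a) (y a) (l a) := by
  unfold InL
  exact RE.ex_mem (p := fun a z => z ∈ (Denumerable.ofNat Code (i a)).eval (y a)) (l := l)
    (RE.comp eval_graph_re (f := fun x : α × ℕ => ((i x.1, y x.1), x.2)) (by fun_prop)) hl

/-- The uniform jump lemma. -/
theorem unif {S : ℕ → ℕ → Prop} (h0 : ∀ x, ¬ S 0 x) {R : ℕ × ℕ → Info → Prop}
    (hR : REPred fun x : (ℕ × ℕ) × Info => R x.1 x.2)
    (hS : ∀ n x, S (n + 1) x ↔ ∃ c, R (n, x) c ∧ Ok {y | S n y} c) :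
    ∃ G : ℕ → ℕ → ℕ, Computable₂ G ∧ ∀ n x, S n x ↔ G n x ∈ jump^[n] ∅ := by
  -- the index of the relation after translation
  have hP : REPred fun q : ((ℕ × ℕ) × ℕ) × Info => ∃ c : Info, R (q.1.1.2, q.1.2) c ∧
      (∀ y ∈ c.1, InL q.1.1.1 y q.2.1) ∧ ∀ y ∈ c.2, InL q.1.1.1 y q.2.2 := by
    refine RE.ex (p := fun (q : ((ℕ × ℕ) × ℕ) × Info) (c : Info) => R (q.1.1.2, q.1.2) c ∧
      (∀ y ∈ c.1, InL q.1.1.1 y q.2.1) ∧ ∀ y ∈ c.2, InL q.1.1.1 y q.2.2) ?_
    refine RE.and ?_ (RE.and ?_ ?_)
    · exact RE.comp hR (f := fun x : (((ℕ × ℕ) × ℕ) × Info) × Info =>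
        ((x.1.1.1.2, x.1.1.2), x.2)) (by fun_prop)
    · exact RE.all_mem (p := fun (x : (((ℕ × ℕ) × ℕ) × Info) × Info) (y : ℕ) =>
        InL x.1.1.1.1 y x.1.2.1) (l := fun x => x.2.1)
        (inL_re (by fun_prop) (by fun_prop) (by fun_prop)) (by fun_prop)
    · exact RE.all_mem (p := fun (x : (((ℕ × ℕ) × ℕ) × Info) × Info) (y : ℕ) =>
        InL x.1.1.1.1 y x.1.2.2) (l := fun x => x.2.2)
        (inL_re (by fun_prop) (by fun_prop) (by fun_prop)) (by fun_prop)
  obtain ⟨g, hg, h1⟩ := smn (P := fun (q : (ℕ × ℕ) × ℕ) (c' : Info) => ∃ c : Info,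
    R (q.1.2, q.2) c ∧ (∀ y ∈ c.1, InL q.1.1 y c'.1) ∧ ∀ y ∈ c.2, InL q.1.1 y c'.2) hP
  have hg' : Nat.Partrec fun z : ℕ => (Part.some (g (Denumerable.ofNat ((ℕ × ℕ) × ℕ) z)) :
      Part ℕ) := by
    have : Computable fun z : ℕ => g (Denumerable.ofNat ((ℕ × ℕ) × ℕ) z) :=
      hg.comp (Computable.ofNat _)
    exact Partrec.nat_iff.1 this
  obtain ⟨c0, hc0⟩ := Code.exists_code.1 hg'
  -- the indices
  let I : ℕ → ℕ := fun n => Nat.rec (encode (Code.const 0))
    (fun k i => encode (Code.curry c0 (encode (i, k)))) n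
  have hI : Computable I := by
    have h2 : Computable₂ fun (_ : ℕ) (y : ℕ × ℕ) => encode (Code.curry c0 (encode (y.2, y.1))) := by
      refine Computable.encode.comp ((Code.primrec₂_curry.to_comp).comp (Computable.const c0) ?_)
      exact Computable.encode.comp (by fun_prop)
    exact (Computable.nat_rec (f := fun n : ℕ => n) (g := fun _ : ℕ => encode (Code.const 0))
      Computable.id (Computable.const _) h2).of_eq fun n => rfl
  let G : ℕ → ℕ → ℕ := fun n x => Nat.casesOn n 0 fun k => g ((I k, k), x)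
  have hG : Computable₂ G := by
    refine Computable.nat_casesOn (f := fun q : ℕ × ℕ => q.1) (g := fun _ : ℕ × ℕ => 0)
      (h := fun (q : ℕ × ℕ) (k : ℕ) => g ((I k, k), q.2)) Computable.fst (Computable.const 0) ?_
    exact hg.comp (((hI.comp Computable.snd).pair Computable.snd).pair
      (Computable.snd.comp Computable.fst))
  have hev : ∀ n x, (Denumerable.ofNat Code (I n)).eval x = Part.some (G n x) := by
    intro n x
    rcases n with _ | n
    · show (Denumerable.ofNat Code (encode (Code.const 0))).eval x = _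
      rw [Denumerable.ofNat_encode, Code.eval_const]
      rfl
    · show (Denumerable.ofNat Code (encode (Code.curry c0 (encode (I n, n))))).eval x = _
      rw [Denumerable.ofNat_encode, Code.eval_curry, hc0]
      have h3 : Nat.pair (encode (I n, n)) x = encode ((I n, n), x) := rfl
      rw [h3]
      simp only [Denumerable.ofNat_encode]
      rfl
  refine ⟨G, hG, fun n => ?_⟩
  induction n with
  | zero =>
    intro x
    simp only [Function.iterate_zero, id, Set.mem_empty_iff_false, iff_false]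
    exact h0 x
  | succ n ih =>
    intro x
    rw [hS, Function.iterate_succ_apply']
    have hin : ∀ y l, InL (I n) y l ↔ G n y ∈ l := by
      intro y l
      unfold InL
      simp only [hev, Part.mem_some_iff, exists_eq_right]
    show _ ↔ g ((I n, n), x) ∈ jump (jump^[n] ∅)
    constructor
    · rintro ⟨c, hc, hok⟩
      refine ⟨(c.1.map (G n), c.2.map (G n)), ⟨?_, ?_⟩, (h1 _ _).2 ⟨c, hc, ?_, ?_⟩⟩
      · intro y hy
        obtain ⟨z, hz, rfl⟩ := List.mem_map.1 hy
        exact (ih z).1 (hok.1 z hz)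
      · intro y hy
        obtain ⟨z, hz, rfl⟩ := List.mem_map.1 hy
        exact fun h => hok.2 z hz ((ih z).2 h)
      · intro y hy
        rw [hin]
        exact List.mem_map_of_mem hy
      · intro y hy
        rw [hin]
        exact List.mem_map_of_mem hy
    · rintro ⟨c', hok, hW⟩
      obtain ⟨c, hc, h2, h3⟩ := (h1 _ _).1 hW
      refine ⟨c, hc, fun y hy => ?_, fun y hy h => ?_⟩
      · have := h2 y hy
        rw [hin] at this
        exact (ih y).2 (hok.1 _ this)
      · have := h3 y hy
        rw [hin] at this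
        exact hok.2 _ this ((ih y).1 h)

end Pool.Agent.W882.CM
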