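import Pool.Agent.W882.CM.Codes
import Pool.Agent.W882.CM.Unif

set_option autoImplicit false

/-!
The theory of a computable structure is many-one reducible to `zeroOmega`.
-/

namespace Pool.Agent.W882.CM

open Encodable Pool.Agent.Helper578.JD Oracle RE Defs
open Nat.Partrec (Code)

section lists
variable {α β σ : Type} [Primcodable α] [Primcodable β] [Primcodable σ]

theorem clmap {f : α → List β} {h : α → β → σ} (hf : Computable f)
    (hh : Computable fun x : α × β => h x.1 x.2) : Computable fun a => (f a).map (h a) := by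
  have h1 := list_foldl (f := f) (g := fun _ : α => ([] : List σ))
    (h := fun (a : α) (y : List σ × β) => y.1 ++ [h a y.2]) hf (Computable.const [])
    (Computable.list_concat.comp (Computable.fst.comp Computable.snd)
      (hh.comp (g := fun x : α × (List σ × β) => (x.1, x.2.2)) (by fun_prop)))
  refine h1.of_eq fun a => ?_
  have h2 : ∀ (l : List β) (s : List σ), l.foldl (fun s b => s ++ [h a b]) s = s ++ l.map (h a) := by
    intro l
    induction l with
    | nil => intro s; simp
    | cons b l ih => intro s; rw [List.foldl_cons, ih]; simp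
  exact h2 (f a) []

theorem clflat {f : α → List (List β)} (hf : Computable f) : Computable fun a => (f a).flatten :=
  Primrec.list_flatten.to_comp.comp hf

end lists

/-- all members of the list are true -/
theorem all_true (l : List Bool) : false ∉ l ↔ ∀ b ∈ l, b = true := by
  constructor
  · intro h b hb
    cases b with
    | true => rfl
    | false => exact absurd hb h
  · intro h hf
    exact absurd (h false hf) (by simp)

theorem wfT {L : Sig} (hL : L.IsComputable) :
    ∃ w : ℕ → Bool, Computable w ∧ ∀ t : Tm, w t.code = true ↔ t.InSig L := by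
  classical
  have hb : Computable fun q : (Unit × ℕ) × List Bool =>
      (decide (L.fn q.1.2 = some q.2.length) && !decide (false ∈ q.2)) := by
    refine cand (cdecide (cp_eq (hL.2.comp (by fun_prop)) (by fun_prop)))
      (cnot (cdecide (cp_mem (by fun_prop) (by fun_prop))))
  obtain ⟨f, hf, h⟩ := tm_rec (α := Unit) (σ := Bool) false
    (F := fun _ t => decide (t.InSig L)) (a := fun _ _ => true)
    (b := fun _ i l => (decide (L.fn i = some l.length) && !decide (false ∈ l)))
    (Computable.const true) hb (by intro z v; exact decide_eq_true (by simp [Tm.InSig])) (by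
      intro z i k ts
      rw [Bool.eq_iff_iff, decide_eq_true_iff]
      simp only [decide_eq_true_eq, Bool.and_eq_true, Bool.not_eq_true', decide_eq_false_iff_not,
        List.length_ofFn, Tm.InSig, all_true]
      simp [List.mem_ofFn])
  refine ⟨f (), hf.comp (Computable.const ()) Computable.id, fun t => ?_⟩
  rw [h]
  simp

theorem varsT : ∃ w : ℕ → List ℕ, Computable w ∧ ∀ t : Tm, w t.code = t.vars := by
  obtain ⟨f, hf, h⟩ := tm_rec (α := Unit) (σ := List ℕ) []
    (F := fun _ t => t.vars) (a := fun _ v => [v])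
    (b := fun _ _ l => l.flatten)
    (by fun_prop) (clflat (by fun_prop)) (by intro z v; simp [Tm.vars]) (by
      intro z i k ts
      simp only [Tm.vars])
  exact ⟨f (), hf.comp (Computable.const ()) Computable.id, fun t => h () t⟩

theorem wfF {L : Sig} (hL : L.IsComputable) :
    ∃ w : ℕ → Bool, Computable w ∧ ∀ φ : Fm, w φ.code = true ↔ φ.InSig L := by
  classical
  obtain ⟨w, hw, hw'⟩ := wfT hL
  obtain ⟨f, hf, h⟩ := fm_rec (α := Unit) (σ := Bool) false
    (F := fun _ φ => decide (φ.InSig L))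
    (r := fun _ i l => (decide (L.rel i = some l.length) && !decide (false ∈ l.map w)))
    (e := fun _ s t => w s && w t) (n := fun _ b => b) (c := fun _ b b' => b && b')
    (x := fun _ _ b => b)
    (by
      refine cand (cdecide (cp_eq (hL.1.comp (by fun_prop)) (by fun_prop)))
        (cnot (cdecide (cp_mem (by fun_prop) ?_)))
      exact clmap (h := fun _ k => w k) (by fun_prop) (hw.comp Computable.snd))
    (by
      refine cand (hw.comp (g := fun q : (Unit × ℕ) × ℕ => q.1.2) (by fun_prop))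
        (hw.comp (g := fun q : (Unit × ℕ) × ℕ => q.2) (by fun_prop)))
    (by fun_prop) (by fun_prop) (by fun_prop)
    (by
      intro z i k ts
      rw [Bool.eq_iff_iff, decide_eq_true_iff]
      simp only [decide_eq_true_eq, Bool.and_eq_true, Bool.not_eq_true', decide_eq_false_iff_not,
        List.length_ofFn, Fm.InSig, all_true]
      simp [hw', List.mem_ofFn])
    (by intro z s t; rw [Bool.eq_iff_iff, decide_eq_true_iff]; simp [Fm.InSig, hw'])
    (by intro z φ; rw [Bool.eq_iff_iff, decide_eq_true_iff, decide_eq_true_iff]; simp [Fm.InSig])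
    (by intro z φ ψ; rw [Bool.eq_iff_iff, decide_eq_true_iff]; simp [Fm.InSig])
    (by intro z v φ; rw [Bool.eq_iff_iff, decide_eq_true_iff, decide_eq_true_iff]; simp [Fm.InSig])
  refine ⟨f (), hf.comp (Computable.const ()) Computable.id, fun t => ?_⟩
  rw [h]
  simp

theorem fvF : ∃ w : ℕ → List ℕ, Computable w ∧ ∀ φ : Fm, w φ.code = φ.fv := by
  obtain ⟨w, hw, hw'⟩ := varsT
  obtain ⟨f, hf, h⟩ := fm_rec (α := Unit) (σ := List ℕ) []
    (F := fun _ φ => φ.fv)
    (r := fun _ i l => (l.map w).flatten)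
    (e := fun _ s t => w s ++ w t) (n := fun _ b => b) (c := fun _ b b' => b ++ b')
    (x := fun _ v b => b.filter (· ≠ v))
    (clflat (clmap (h := fun _ k => w k) (by fun_prop) (hw.comp Computable.snd)))
    (by
      refine cappend (hw.comp (g := fun q : (Unit × ℕ) × ℕ => q.1.2) (by fun_prop))
        (hw.comp (g := fun q : (Unit × ℕ) × ℕ => q.2) (by fun_prop)))
    (by fun_prop) (by fun_prop) (cremove (by fun_prop) (by fun_prop))
    (by
      intro z i k ts
      simp only [Fm.fv, List.map_ofFn, Function.comp_def, hw'])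
    (by intro z s t; simp only [Fm.fv, hw'])
    (by intro z φ; simp only [Fm.fv])
    (by intro z φ ψ; simp only [Fm.fv])
    (by intro z v φ; simp only [Fm.fv])
  exact ⟨f (), hf.comp (Computable.const ()) Computable.id, fun φ => h () φ⟩

theorem sentF {L : Sig} (hL : L.IsComputable) :
    ∃ w : ℕ → Bool, Computable w ∧ ∀ φ : Fm, w φ.code = true ↔ φ.IsSentence L := by
  obtain ⟨w, hw, h⟩ := wfF hL
  obtain ⟨v, hv, h'⟩ := fvF
  refine ⟨fun n => w n && decide (v n = []), cand hw (cdecide (cp_eq hv (by fun_prop))), fun φ => ?_⟩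
  simp only [Bool.and_eq_true, decide_eq_true_eq, h, h', Fm.IsSentence]

/-! ### assignments -/

/-- the assignment given by a list and a default value -/
def asg (u : ℕ) (as : List ℕ) (i : ℕ) : ℕ := (as[i]?).getD u

/-- update of a list -/
def lup (u : ℕ) (as : List ℕ) (v a : ℕ) : List ℕ :=
  (List.range (max as.length (v + 1))).map (fun i => if i = v then a else asg u as i)

theorem asg_lup (u : ℕ) (as : List ℕ) (v a : ℕ) :
    asg u (lup u as v a) = Function.update (asg u as) v a := by
  funext i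
  unfold lup
  rw [asg, List.getElem?_map]
  by_cases hi : i < max as.length (v + 1)
  · rw [List.getElem?_range hi]
    simp only [Option.map_some, Option.getD_some]
    by_cases h : i = v
    · subst h; simp
    · rw [if_neg h, Function.update_of_ne h]
  · rw [List.getElem?_eq_none (by simpa using hi)]
    have h1 : i ≠ v := by omega
    rw [Function.update_of_ne h1, asg, List.getElem?_eq_none (by omega)]
    rfl

theorem asg_mem {U : Set ℕ} {u : ℕ} (hu : u ∈ U) {as : List ℕ} (has : ∀ a ∈ as, a ∈ U) (i : ℕ) :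
    asg u as i ∈ U := by
  unfold asg
  rcases h : as[i]? with _ | a
  · exact hu
  · exact has a (List.mem_of_getElem? h)

theorem lup_mem {U : Set ℕ} {u : ℕ} (hu : u ∈ U) {as : List ℕ} (has : ∀ a ∈ as, a ∈ U) (v : ℕ)
    {a : ℕ} (ha : a ∈ U) : ∀ b ∈ lup u as v a, b ∈ U := by
  intro b hb
  unfold lup at hb
  obtain ⟨i, -, rfl⟩ := List.mem_map.1 hb
  split_ifs with h
  · exact ha
  · exact asg_mem hu has i

theorem casg {α : Type} [Primcodable α] (u : ℕ) {f : α → List ℕ} {g : α → ℕ} (hf : Computable f)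
    (hg : Computable g) : Computable fun x => asg u (f x) (g x) := by
  unfold asg
  exact cgetD u hg hf

theorem clup {α : Type} [Primcodable α] (u : ℕ) {f : α → List ℕ} {g h : α → ℕ} (hf : Computable f)
    (hg : Computable g) (hh : Computable h) : Computable fun x => lup u (f x) (g x) (h x) := by
  unfold lup
  refine clmap (f := fun x => List.range (max (f x).length (g x + 1)))
    (h := fun x i => if i = g x then h x else asg u (f x) i) ?_ ?_
  · exact Primrec.list_range.to_comp.comp (by fun_prop)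
  · refine cite (cp_eq (by fun_prop) (by fun_prop)) (by fun_prop) ?_
    exact casg u (by fun_prop) (by fun_prop)

/-! ### values of terms -/

theorem val_eq {L : Sig} {A : Str} (hA : A.IsStr L) {F : ℕ → List ℕ → ℕ}
    (hF : ∀ i xs, L.fn i = some xs.length → (∀ x ∈ xs, x ∈ A.U) → F i xs = A.F i xs)
    {x : ℕ → ℕ} (hx : ∀ v, x v ∈ A.U) (t : Tm) (ht : t.InSig L) :
    t.val ⟨A.U, A.R, F⟩ x = t.val A x ∧ t.val A x ∈ A.U := by
  induction t with
  | var v => simp only [Tm.val]; exact ⟨trivial, hx v⟩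
  | app i k ts ih =>
    simp only [Tm.InSig] at ht
    simp only [Tm.val]
    have h1 : (List.ofFn fun j => (ts j).val ⟨A.U, A.R, F⟩ x) =
        List.ofFn fun j => (ts j).val A x := by
      congr 1
      funext j
      exact (ih j (ht.2 j)).1
    have h2 : ∀ y ∈ (List.ofFn fun j => (ts j).val A x), y ∈ A.U := by
      intro y hy
      obtain ⟨j, rfl⟩ := List.mem_ofFn.1 hy
      exact (ih j (ht.2 j)).2
    have h3 : L.fn i = some (List.ofFn fun j => (ts j).val A x).length := by
      rw [List.length_ofFn]; exact ht.1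
    rw [h1]
    exact ⟨hF i _ h3 h2, hA.2 i _ h3 h2⟩

theorem valT (L : Sig) {A : Str} (hA : A.IsStr L) {e : ℕ × List ℕ → ℕ} (he : Computable e)
    (hF : ∀ i xs, L.fn i = some xs.length → (∀ x ∈ xs, x ∈ A.U) → e (i, xs) = A.F i xs)
    {u : ℕ} (hu : u ∈ A.U) :
    ∃ w : List ℕ → ℕ → ℕ, Computable₂ w ∧ ∀ (as : List ℕ) (t : Tm), (∀ a ∈ as, a ∈ A.U) →
      t.InSig L → w as t.code = t.val A (asg u as) := by
  obtain ⟨f, hf, h⟩ := tm_rec (α := List ℕ) (σ := ℕ) 0
    (F := fun as t => t.val ⟨A.U, A.R, fun i xs => e (i, xs)⟩ (asg u as))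
    (a := fun as v => asg u as v) (b := fun _ i l => e (i, l))
    (casg u (by fun_prop) (by fun_prop)) (he.comp (by fun_prop))
    (by intro z v; simp only [Tm.val]) (by intro z i k ts; simp only [Tm.val])
  refine ⟨f, hf, fun as t has ht => ?_⟩
  rw [h]
  exact (val_eq hA hF (fun v => asg_mem hu has v) t ht).1

/-! ### truth -/

/-- the conditions for truth of a formula (given by its code) in terms of smaller codes -/
def Q (A : Str) (u : ℕ) (d : ℕ × List ℕ → Bool) (w : List ℕ → ℕ → ℕ) (as : List ℕ) (k : ℕ)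
    (c : Info) : Prop :=
  (k.unpair.1 = 0 ∧ d (k.unpair.2.unpair.1,
    (Denumerable.ofNat (List ℕ) k.unpair.2.unpair.2).map (w as)) = true) ∨
  (k.unpair.1 = 1 ∧ w as k.unpair.2.unpair.1 = w as k.unpair.2.unpair.2) ∨
  (k.unpair.1 = 2 ∧ Nat.pair k.unpair.2 (encode as) ∈ c.2) ∨
  (k.unpair.1 = 3 ∧ Nat.pair k.unpair.2.unpair.1 (encode as) ∈ c.1 ∧
    Nat.pair k.unpair.2.unpair.2 (encode as) ∈ c.1) ∨
  (4 ≤ k.unpair.1 ∧ ∃ a, a ∈ A.U ∧ Nat.pair k.unpair.2 (encode (lup u as (k.unpair.1 - 4) a)) ∈ c.1)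

theorem Q_re {A : Str} (hU : ComputablePred (fun n => n ∈ A.U)) (u : ℕ)
    {d : ℕ × List ℕ → Bool} (hd : Computable d) {w : List ℕ → ℕ → ℕ} (hw : Computable₂ w)
    {α : Type} [Primcodable α] {as : α → List ℕ} {k : α → ℕ} {c : α → Info}
    (has : Computable as) (hk : Computable k) (hc : Computable c) :
    REPred fun x => Q A u d w (as x) (k x) (c x) := by
  unfold Q
  refine RE.or ?_ (RE.or ?_ (RE.or ?_ (RE.or ?_ ?_)))
  · refine RE.and (RE.eq (by fun_prop) (by fun_prop)) (RE.of_bool (hd.comp ?_))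
    refine Computable.pair (by fun_prop) ?_
    exact clmap (f := fun x => Denumerable.ofNat (List ℕ) (k x).unpair.2.unpair.2)
      (h := fun x j => w (as x) j) (by fun_prop) (hw.comp (by fun_prop) (by fun_prop))
  · refine RE.and (RE.eq (by fun_prop) (by fun_prop)) (RE.eq ?_ ?_)
    · exact hw.comp (by fun_prop) (by fun_prop)
    · exact hw.comp (by fun_prop) (by fun_prop)
  · exact RE.and (RE.eq (by fun_prop) (by fun_prop)) (RE.mem_list (by fun_prop) (by fun_prop))
  · exact RE.and (RE.eq (by fun_prop) (by fun_prop)) (RE.and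
      (RE.mem_list (by fun_prop) (by fun_prop)) (RE.mem_list (by fun_prop) (by fun_prop)))
  · refine RE.and (RE.le (by fun_prop) (by fun_prop)) ?_
    refine RE.ex (p := fun x (a : ℕ) => a ∈ A.U ∧
      Nat.pair (k x).unpair.2 (encode (lup u (as x) ((k x).unpair.1 - 4) a)) ∈ (c x).1) ?_
    refine RE.and (RE.comp (RE.of_comput hU) (f := fun x : α × ℕ => x.2) (by fun_prop)) ?_
    refine RE.mem_list (cnatpair (by fun_prop) (cencode (clup u ?_ ?_ ?_))) ?_ <;> fun_prop

/-- the set of true formulas with codes below `n`, with assignments -/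
def STrue (L : Sig) (A : Str) (u : ℕ) (n : ℕ) (x : ℕ) : Prop :=
  ∃ (φ : Fm) (as : List ℕ), x = Nat.pair φ.code (encode as) ∧ φ.code < n ∧ φ.InSig L ∧
    (∀ a ∈ as, a ∈ A.U) ∧ φ.Sat A (asg u as)

theorem STrue_iff {L : Sig} {A : Str} {u n : ℕ} {φ : Fm} {as : List ℕ} :
    STrue L A u n (Nat.pair φ.code (encode as)) ↔ φ.code < n ∧ φ.InSig L ∧
      (∀ a ∈ as, a ∈ A.U) ∧ φ.Sat A (asg u as) := by
  constructor
  · rintro ⟨ψ, bs, h, h1⟩
    rw [Nat.pair_eq_pair] at h
    rw [Fm.code_inj _ _ h.1, Encodable.encode_injective h.2]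
    exact h1
  · intro h
    exact ⟨φ, as, rfl, h⟩

theorem Q_iff {L : Sig} {A : Str} (hA : A.IsStr L) {u : ℕ} (hu : u ∈ A.U)
    {d : ℕ × List ℕ → Bool}
    (hd : ∀ i xs, L.rel i = some xs.length → (∀ x ∈ xs, x ∈ A.U) → (d (i, xs) = true ↔ A.R i xs))
    {w : List ℕ → ℕ → ℕ} (hw : ∀ (as : List ℕ) (t : Tm), (∀ a ∈ as, a ∈ A.U) →
      t.InSig L → w as t.code = t.val A (asg u as))
    {φ : Fm} (hφ : φ.InSig L) {as : List ℕ} (has : ∀ a ∈ as, a ∈ A.U) :
    (∃ c, Q A u d w as φ.code c ∧ Ok {y | STrue L A u φ.code y} c) ↔ φ.Sat A (asg u as) := by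
  have hmem : ∀ (c : Info) (ψ : Fm) (bs : List ℕ), Ok {y | STrue L A u φ.code y} c →
      Nat.pair ψ.code (encode bs) ∈ c.1 → ψ.Sat A (asg u bs) := by
    intro c ψ bs hok h
    exact (STrue_iff.1 (hok.1 _ h)).2.2.2
  cases φ with
  | rel i k ts =>
    have hk : (Fm.rel i k ts).code.unpair =
        (0, Nat.pair i (encode (List.ofFn fun j => (ts j).code))) := by
      simp [Fm.code]
    simp only [Fm.InSig] at hφ
    have hval : (List.ofFn fun j => (ts j).code).map (w as) =
        List.ofFn fun j => (ts j).val A (asg u as) := by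
      rw [List.map_ofFn]
      congr 1
      funext j
      exact hw as (ts j) has (hφ.2 j)
    have hd' := hd i (List.ofFn fun j => (ts j).val A (asg u as))
      (by rw [List.length_ofFn]; exact hφ.1) (by
      intro y hy
      obtain ⟨j, rfl⟩ := List.mem_ofFn.1 hy
      exact (val_eq hA (F := A.F) (fun _ _ _ _ => rfl) (fun v => asg_mem hu has v) (ts j)
        (hφ.2 j)).2)
    unfold Q
    simp only [hk, Nat.unpair_pair, Denumerable.ofNat_encode, hval, hd', Fm.Sat]
    constructor
    · rintro ⟨c, ⟨-, h⟩ | ⟨h, -⟩ | ⟨h, -⟩ | ⟨h, -⟩ | ⟨h, -⟩, -⟩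
      · exact h
      · omega
      · omega
      · omega
      · omega
    · intro h
      exact ⟨([], []), Or.inl ⟨by simp, h⟩, by simp [Ok]⟩
  | eq s t =>
    have hk : (Fm.eq s t).code.unpair = (1, Nat.pair s.code t.code) := by simp [Fm.code]
    simp only [Fm.InSig] at hφ
    unfold Q
    simp only [hk, Nat.unpair_pair, hw as s has hφ.1, hw as t has hφ.2, Fm.Sat]
    constructor
    · rintro ⟨c, ⟨h, -⟩ | ⟨-, h⟩ | ⟨h, -⟩ | ⟨h, -⟩ | ⟨h, -⟩, -⟩
      · omega
      · exact h
      · omega
      · omega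
      · omega
    · intro h
      exact ⟨([], []), Or.inr (Or.inl ⟨by simp, h⟩), by simp [Ok]⟩
  | not ψ =>
    have hk : (Fm.not ψ).code.unpair = (2, ψ.code) := by simp [Fm.code]
    simp only [Fm.InSig] at hφ
    simp only [Fm.Sat]
    constructor
    · rintro ⟨c, hQ, hok⟩
      unfold Q at hQ
      simp only [hk] at hQ
      rcases hQ with ⟨h, -⟩ | ⟨h, -⟩ | ⟨-, h⟩ | ⟨h, -⟩ | ⟨h, -⟩
      · omega
      · omega
      · intro hs
        exact hok.2 _ h (STrue_iff.2 ⟨Fm.lt_not ψ, hφ, has, hs⟩)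
      · omega
      · omega
    · intro h
      refine ⟨([], [Nat.pair ψ.code (encode as)]), ?_, by simp, ?_⟩
      · unfold Q
        simp only [hk]
        exact Or.inr (Or.inr (Or.inl ⟨by simp, by simp⟩))
      · intro y hy hy'
        rw [List.mem_singleton.1 hy] at hy'
        exact h (STrue_iff.1 hy').2.2.2
  | and ψ χ =>
    have hk : (Fm.and ψ χ).code.unpair = (3, Nat.pair ψ.code χ.code) := by simp [Fm.code]
    simp only [Fm.InSig] at hφ
    simp only [Fm.Sat]
    constructor
    · rintro ⟨c, hQ, hok⟩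
      unfold Q at hQ
      simp only [hk, Nat.unpair_pair] at hQ
      rcases hQ with ⟨h, -⟩ | ⟨h, -⟩ | ⟨h, -⟩ | ⟨-, h, h'⟩ | ⟨h, -⟩
      · omega
      · omega
      · omega
      · exact ⟨hmem c _ _ hok h, hmem c _ _ hok h'⟩
      · omega
    · rintro ⟨h, h'⟩
      refine ⟨([Nat.pair ψ.code (encode as), Nat.pair χ.code (encode as)], []), ?_, ?_, by simp⟩
      · unfold Q
        simp only [hk, Nat.unpair_pair]
        exact Or.inr (Or.inr (Or.inr (Or.inl ⟨by simp, by simp, by simp⟩)))
      · intro y hy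
        rcases List.mem_cons.1 hy with rfl | hy
        · exact STrue_iff.2 ⟨Fm.lt_and1 ψ χ, hφ.1, has, h⟩
        · rw [List.mem_singleton.1 hy]
          exact STrue_iff.2 ⟨Fm.lt_and2 ψ χ, hφ.2, has, h'⟩
  | ex v ψ =>
    have hk : (Fm.ex v ψ).code.unpair = (v + 4, ψ.code) := by simp [Fm.code]
    simp only [Fm.InSig] at hφ
    simp only [Fm.Sat]
    constructor
    · rintro ⟨c, hQ, hok⟩
      unfold Q at hQ
      simp only [hk, Nat.add_sub_cancel] at hQ
      rcases hQ with ⟨h, -⟩ | ⟨h, -⟩ | ⟨h, -⟩ | ⟨h, -⟩ | ⟨-, a, ha, h⟩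
      · omega
      · omega
      · omega
      · omega
      · refine ⟨a, ha, ?_⟩
        rw [← asg_lup]
        exact hmem c _ _ hok h
    · rintro ⟨a, ha, h⟩
      rw [← asg_lup] at h
      refine ⟨([Nat.pair ψ.code (encode (lup u as v a))], []), ?_, ?_, by simp⟩
      · unfold Q
        simp only [hk, Nat.add_sub_cancel]
        exact Or.inr (Or.inr (Or.inr (Or.inr ⟨by omega, a, ha, by simp⟩)))
      · intro y hy
        rw [List.mem_singleton.1 hy]
        exact STrue_iff.2 ⟨Fm.lt_ex v ψ, hφ, lup_mem hu has v ha, h⟩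

/-- Truth in a computable structure is many-one reducible to the iterated jumps. -/
theorem truth {L : Sig} (hL : L.IsComputable) {A : Str} (hA : A.IsComputable L) {u : ℕ}
    (hu : u ∈ A.U) : ∃ G : ℕ → ℕ → ℕ, Computable₂ G ∧
      ∀ n x, STrue L A u n x ↔ G n x ∈ jump^[n] ∅ := by
  obtain ⟨hstr, hU, ⟨d, hd, hd'⟩, e, he, he'⟩ := hA
  obtain ⟨w, hw, hw'⟩ := valT L hstr he he' hu
  obtain ⟨wf, hwf, hwf'⟩ := wfF hL
  refine unif (S := STrue L A u) (R := fun y c => (y.2.unpair.1 < y.1 ∧ y.2 ∈ c.1) ∨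
    (y.2.unpair.1 = y.1 ∧ wf y.2.unpair.1 = true ∧
      (∀ a ∈ Denumerable.ofNat (List ℕ) y.2.unpair.2, a ∈ A.U) ∧
      Q A u d w (Denumerable.ofNat (List ℕ) y.2.unpair.2) y.2.unpair.1 c)) ?_ ?_ ?_
  · rintro x ⟨φ, as, -, h, -⟩
    exact absurd h (Nat.not_lt_zero _)
  · refine RE.or (RE.and (RE.lt (by fun_prop) (by fun_prop))
      (RE.mem_list (by fun_prop) (by fun_prop))) ?_
    refine RE.and (RE.eq (by fun_prop) (by fun_prop)) (RE.and
      (RE.of_bool (hwf.comp (by fun_prop))) (RE.and ?_ (Q_re hU u hd hw (by fun_prop)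
      (by fun_prop) (by fun_prop))))
    exact RE.all_mem (p := fun (_ : (ℕ × ℕ) × Info) a => a ∈ A.U)
      (l := fun x => Denumerable.ofNat (List ℕ) x.1.2.unpair.2)
      (RE.comp (RE.of_comput hU) (f := fun x : ((ℕ × ℕ) × Info) × ℕ => x.2) (by fun_prop))
      (by fun_prop)
  · intro n x
    obtain ⟨φ, hφ⟩ := Fm.code_surj x.unpair.1
    have hx : x = Nat.pair φ.code (encode (Denumerable.ofNat (List ℕ) x.unpair.2)) := by
      rw [hφ, Denumerable.encode_ofNat, Nat.pair_unpair]
    generalize Denumerable.ofNat (List ℕ) x.unpair.2 = as at hx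
    subst hx
    simp only [Nat.unpair_pair, STrue_iff, hwf']
    constructor
    · rintro ⟨h1, h2, h3, h4⟩
      rcases Nat.lt_succ_iff_lt_or_eq.1 h1 with h1 | h1
      · refine ⟨([Nat.pair φ.code (encode as)], []), Or.inl ⟨h1, by simp⟩, ?_, by simp⟩
        intro y hy
        rw [List.mem_singleton.1 hy]
        exact STrue_iff.2 ⟨h1, h2, h3, h4⟩
      · subst h1
        obtain ⟨c, hc, hok⟩ := (Q_iff hstr hu hd' hw' h2 h3).2 h4
        exact ⟨c, Or.inr ⟨rfl, h2, h3, hc⟩, hok⟩
    · rintro ⟨c, ⟨h1, h2⟩ | ⟨h1, h2, h3, h4⟩, hok⟩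
      · obtain ⟨h3, h4⟩ := STrue_iff.1 (hok.1 _ h2)
        exact ⟨by omega, h4⟩
      · subst h1
        exact ⟨by omega, h2, h3, (Q_iff hstr hu hd' hw' h2 h3).1 ⟨c, h4, hok⟩⟩

/-- A complete theory with a computable model is many-one reducible to `zeroOmega`. -/
theorem theory_reduces {L : Sig} (hL : L.IsComputable) {T : Set Fm} (hT : IsCompleteTheory L T)
    {A : Str} (hA : A.IsComputable L) (hM : A.IsModel T) :
    ∃ f : ℕ → ℕ, Computable f ∧ ∀ m, m ∈ codes T ↔ f m ∈ zeroOmega := by
  obtain ⟨u, hu⟩ := hA.1.1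
  obtain ⟨G, hG, hG'⟩ := truth hL hA hu
  obtain ⟨s, hs, hs'⟩ := sentF hL
  refine ⟨fun m => bif s m then Nat.pair (m + 1) (G (m + 1) (Nat.pair m (encode ([] : List ℕ))))
    else Nat.pair 0 0, ?_, fun m => ?_⟩
  · refine ccond hs (cnatpair (by fun_prop) (hG.comp (by fun_prop) ?_)) (by fun_prop)
    exact cnatpair (by fun_prop) (Computable.const _)
  · obtain ⟨φ, rfl⟩ := Fm.code_surj m
    have h1 : φ.code ∈ codes T ↔ φ ∈ T := by
      constructor
      · rintro ⟨ψ, hψ, h⟩
        rw [← Fm.code_inj _ _ h]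
        exact hψ
      · intro h
        exact ⟨φ, h, rfl⟩
    rw [h1]
    beta_reduce
    have hasg : ∀ v, asg u [] v ∈ A.U := fun v => asg_mem hu (by simp) v
    by_cases hφ : φ.IsSentence L
    · have h2 : s φ.code = true := (hs' φ).2 hφ
      rw [h2, cond_true]
      have h3 : φ ∈ T ↔ φ.Sat A (asg u []) := by
        constructor
        · intro h
          exact hM φ h _ hasg
        · intro h
          rcases hT.2 φ hφ with h4 | h4
          · exact h4
          · exact absurd h (hM _ h4 _ hasg)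
      rw [h3]
      show _ ↔ (Nat.pair (φ.code + 1) _).unpair.2 ∈ jump^[(Nat.pair (φ.code + 1) _).unpair.1] ∅
      rw [Nat.unpair_pair]
      show _ ↔ G (φ.code + 1) _ ∈ jump^[φ.code + 1] ∅
      rw [← hG', STrue_iff]
      constructor
      · intro h
        exact ⟨by omega, hφ.1, by simp, h⟩
      · exact fun h => h.2.2.2
    · have h2 : s φ.code = false := by
        by_contra h
        exact hφ ((hs' φ).1 (by simpa using h))
      rw [h2, cond_false]
      constructor
      · intro h
        exact absurd (hT.1 φ h) hφ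
      · intro h
        exfalso
        have h3 : (Nat.pair 0 0).unpair.2 ∈ jump^[(Nat.pair 0 0).unpair.1] ∅ := h
        simp at h3

end Pool.Agent.W882.CM
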